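import Pool.Agent.Helper56.HLA.Half.Main

set_option autoImplicit false

namespace Pool.Agent.Results.MP_66e4ee_co.HalfCap

open Pool.Agent.Helper6.HL Pool.Agent.Helper66.HL Pool.Agent.Helper56.HLA Finset Classical

/-- If the largest part of a complete multipartite graph has at most half of the vertices,
then the graph is Hoffman-London: no tree has fewer homomorphisms to it than the path. -/
theorem result :
    ∀ (r : ℕ) (W : Type) [Fintype W] (p : W → Fin r),
      (∀ i, 2 * Nat.card {x : W // p x = i} ≤ Fintype.card W) →
      ∀ (n : ℕ) (T : SimpleGraph (Fin n)), T.IsTree →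
        Nat.card {f : Fin n → W // ∀ u v : Fin n,
            (SimpleGraph.pathGraph n).Adj u v → p (f u) ≠ p (f v)}
          ≤ Nat.card {f : Fin n → W // ∀ u v : Fin n, T.Adj u v → p (f u) ≠ p (f v)} := by
  intro r W _ p h2 n T hT
  refine hl_of_cond r W p h2 (fun t x ht hx hsize => Half.cond_half hx fun i => ?_) n T hT
  have hsum : ∑ i, t * x i = (Fintype.card W : ℝ) := by
    have h1 : (Finset.univ : Finset W).card = ∑ i, (univ.filter fun x => p x = i).card :=
      Finset.card_eq_sum_card_fiberwise fun x _ => mem_coe.2 (mem_univ _)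
    rw [← Finset.card_univ, h1, Nat.cast_sum]
    refine sum_congr rfl fun i _ => ?_
    rw [← hsize i]
    simp only [Nat.card_eq_fintype_card, Fintype.card_subtype]
  have h3 : (2 : ℝ) * (Nat.card {x : W // p x = i} : ℝ) ≤ (Fintype.card W : ℝ) := by
    exact_mod_cast h2 i
  rw [hsize i, ← hsum, ← mul_sum] at h3
  refine le_of_mul_le_mul_left ?_ ht
  linarith

end Pool.Agent.Results.MP_66e4ee_co.HalfCap
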