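import Pool.Agent.Helper6.HL.Two
import Pool.Agent.Helper6.HL.Link

set_option autoImplicit false

namespace Pool.Agent.Results.MP_66e4ee_co.TwoSizes

open Pool.Agent.Helper6.HL Finset

theorem weights_le {q : ℕ} {w : Fin q → ℝ} {a b : ℝ} (ha : 0 ≤ a) (hb : 0 ≤ b)
    (h : ∀ i, w i = a ∨ w i = b) (k : ℕ) (F : B) (hF : F.size = k) :
    X w w (B.path k) ≤ X w w F := by
  have hw : ∀ i, 0 ≤ w i := fun i => by rcases h i with h | h <;> rw [h] <;> assumption
  rcases Nat.lt_or_ge q 2 with hq | hq
  · -- at most one colour
    cases k with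
    | zero =>
      cases F with
      | nil => exact le_rfl
      | cons c s => simp [B.size] at hF
    | succ k =>
      refine le_trans (le_of_eq ?_) (X_nonneg hw hw F)
      refine sum_eq_zero fun i _ => ?_
      have : (univ.erase i : Finset (Fin q)) = ∅ := by
        ext j
        simp only [mem_erase, mem_univ, and_true, notMem_empty, iff_false, not_not]
        exact Fin.ext (by omega)
      rw [B.path, M_cons, this, sum_empty, zero_mul, mul_zero]
  · have key : ∀ {a b : ℝ}, 0 ≤ b → b ≤ a → (∀ i, w i = a ∨ w i = b) → (∃ i, w i = a) →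
        (∃ i, w i = b) → X w w (B.path k) ≤ X w w F := by
      intro a b hb hab h ⟨i, hi⟩ ⟨j, hj⟩
      rcases hab.eq_or_lt with hab' | hab'
      · subst hab'
        have h' : ∀ i, w i = b := fun i => (h i).elim id id
        refine (two_main (cls := fun _ => True) (a := b) (b := b) (fun i _ => h' i)
          (fun i hi => absurd trivial hi) hb le_rfl ?_ (by omega) k).1 F hF
        rw [sum_congr rfl fun i _ => h' i, sum_const, card_univ, Fintype.card_fin, nsmul_eq_mul]
        have : (2 : ℝ) ≤ q := by exact_mod_cast hq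
        nlinarith
      · have hij : i ≠ j := by
          rintro rfl
          rw [hi] at hj
          exact hab'.ne' hj
        refine (two_main (cls := fun i => w i = a) (a := a) (b := b) (fun i hi => hi)
          (fun i hi => (h i).resolve_left hi) hb hab ?_ (by omega) k).1 F hF
        rw [← add_sum_erase univ w (mem_univ i),
          ← add_sum_erase (univ.erase i) w (mem_erase.2 ⟨hij.symm, mem_univ j⟩), hi, hj]
        have := sum_nonneg fun x (_ : x ∈ (univ.erase i).erase j) => hw x
        linarith
    by_cases h1 : ∃ i, w i = a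
    · by_cases h2 : ∃ i, w i = b
      · rcases le_total b a with hab | hab
        · exact key hb hab h h1 h2
        · exact key ha hab (fun i => (h i).symm) h2 h1
      · have h' : ∀ i, w i = a := fun i => (h i).resolve_right fun hi => h2 ⟨i, hi⟩
        exact key ha le_rfl (fun i => Or.inl (h' i)) h1 h1
    · have h' : ∀ i, w i = b := fun i => (h i).resolve_left fun hi => h1 ⟨i, hi⟩
      exact key hb le_rfl (fun i => Or.inl (h' i)) ⟨⟨0, by omega⟩, h' _⟩ ⟨⟨0, by omega⟩, h' _⟩

/-- Every complete multipartite graph with at most two distinct part sizes is Hoffman-London. -/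
theorem result :
    ∀ (r : ℕ) (W : Type) [Fintype W] (p : W → Fin r) (a b : ℕ),
      (∀ i, Nat.card {x : W // p x = i} = a ∨ Nat.card {x : W // p x = i} = b) →
      ∀ (n : ℕ) (T : SimpleGraph (Fin n)), T.IsTree →
        Nat.card {f : Fin n → W // ∀ u v : Fin n,
            (SimpleGraph.pathGraph n).Adj u v → p (f u) ≠ p (f v)}
          ≤ Nat.card {f : Fin n → W // ∀ u v : Fin n, T.Adj u v → p (f u) ≠ p (f v)} := by
  intro r W _ p a b h n T hT
  obtain ⟨H, h1, h2⟩ := exists_B' (fun i => (Nat.card {x : W // p x = i} : ℝ)) T hT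
  subst h1
  have e1 := card_eq_Y p T
  have e2 := card_eq_Y p (SimpleGraph.pathGraph (H.size + 1))
  rw [h2] at e1
  rw [Y_path'] at e2
  have h3 := weights_le (w := fun i => (Nat.card {x : W // p x = i} : ℝ)) (a := a) (b := b)
    (Nat.cast_nonneg a) (Nat.cast_nonneg b)
    (fun i => (h i).imp (fun h => by rw [h]) (fun h => by rw [h])) H.size H rfl
  rw [← e1, ← e2] at h3
  exact_mod_cast h3

end Pool.Agent.Results.MP_66e4ee_co.TwoSizes
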